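import Pool.Agent.Helper81.TF.Lie
import Pool.Agent.Helper2.HY.Defs

/-!
Project HY (MP_b8862a_ag), block 4: the trace identity (helper81, `TF.exists_in`) together with the levels of the weights.
-/

set_option linter.unusedSectionVars false

open Module LieModule LieAlgebra LieAlgebra.IsKilling AddMonoidAlgebra MTP.MF PF PF.W PF.L

namespace TF

open PF.CC TF.L

variable {K : Type*} [Field K] [CharZero K] [IsAlgClosed K]
  {L : Type*} [LieRing L] [LieAlgebra K L] [FiniteDimensional K L] [IsKilling K L]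
  {H : LieSubalgebra K L} [H.IsCartanSubalgebra]
  {V : Type*} [AddCommGroup V] [Module K V] [FiniteDimensional K V]
  [LieRingModule L V] [LieModule K L V] {I : Type*} [Fintype I] {ω : LinearMap.BilinForm K V}

/-- `TF.exists_in` with the levels of the weights. -/
theorem exists_in2 (B : WB (V := V) H I) [Nonempty I] [Nonempty H.root] [(rootSystem H).IsIrreducible]
    (hirr : ∀ W : Submodule K V, (∀ x : L, ∀ u ∈ W, ⁅x, u⁆ ∈ W) → W = ⊥ ∨ W = ⊤)
    (hfaith : ∀ x : L, (∀ u : V, ⁅x, u⁆ = 0) → x = 0)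
    (hnd : ω.Nondegenerate) (hsk : ∀ (x : L) (u v : V), ω ⁅x, u⁆ v = - ω u ⁅x, v⁆)
    {y : H} (hy : y ≠ 0) (a : I → ℤ) (ha : ∀ i, 2 * B.w i y = (a i : K)) (ha2 : ∀ i j, (2 : ℤ) ∣ a i - a j)
    {T : ℕ} (hT : (T : ℤ) = ∑ i, a i ^ 2) :
    ∃ (b : (rootSystem H).Base) (t : I) (y' : EuclideanSpace ℝ H.root),
      In (PF.CC.Ph (rootSystem H)) (PF.CC.Xw B) (Fintype.card I) T (PF.CC.vec (PF.CC.wt B t)) y' ∧ 0 < T ∧
      finrank ℝ (Submodule.span ℝ (PF.CC.Ph (rootSystem H) : Set (EuclideanSpace ℝ H.root))) = finrank K H ∧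
      (∀ i, Below b (B.w t) (B.w i)) ∧ ∀ i, (inner ℝ (PF.CC.vec (PF.CC.wt B i)) y' : ℝ) = (a i : ℝ) / 2 := by
  classical
  obtain ⟨b⟩ : Nonempty (rootSystem H).Base := (rootSystem H).nonempty_base
  obtain ⟨Q, c, hQs, hQ, hQ3, hQ4, hQ5, hQ6⟩ := exists_cas2 B hirr hfaith b
  obtain ⟨t, htb, htone, htdom⟩ := exists_top B hirr b
  obtain ⟨d, hd0, hd⟩ := sn_const B hQs hQ
  have hsat := sat B hirr hnd hsk
  have hdR : (0 : ℝ) < d := by exact_mod_cast hd0
  have hdK : (d : K) ≠ 0 := by exact_mod_cast hd0.ne'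
  have hS : ∀ α : H.root, 0 < ∑ i, wt B i α * wt B i α := fun α => (hQ α (fun i => wt B i α) fun i => wt_spec B i α).1
  have hQ2 : ∀ α μ, 2 * μ (coroot α.1) = ((∑ i, wt B i α * wt B i α : ℤ) : K) * Q μ ((rootSystem H).root α) :=
    fun α => (hQ α (fun i => wt B i α) fun i => wt_spec B i α).2
  have hQr : ∀ (α : H.root) (ν : Dual K H) (h : H.root → ℤ), (∀ β : H.root, ν (coroot β.1) = (h β : K)) →
      (d : K) * Q ν ((rootSystem H).root α) = 4 * ((∑ j, h j * PF.CC.rt (rootSystem H) α j : ℤ) : K) := by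
    intro α ν h hν
    have h1 := hQ2 α ν
    rw [hν] at h1
    have h2 := two_sum (rootSystem H) (wt_dual hν) α
    have h3 : (2 : K) * ((∑ j, h j * PF.CC.rt (rootSystem H) α j : ℤ) : K) =
        (h α : K) * ((∑ j, PF.CC.rt (rootSystem H) α j * PF.CC.rt (rootSystem H) α j : ℤ) : K) := by exact_mod_cast h2
    rw [← hd α, Int.cast_mul]
    linear_combination (-((∑ j, PF.CC.rt (rootSystem H) α j * PF.CC.rt (rootSystem H) α j : ℤ) : K)) * h1 - 2 * h3
  -- the grading element
  have hαy : ∀ α : H.root, ∃ k : ℤ, α.1 y = (k : K) := by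
    intro α
    obtain ⟨i, j, hij⟩ := B.root_apply hfaith α
    obtain ⟨k, hk⟩ := ha2 j i
    refine ⟨k, ?_⟩
    have h1 := hij y
    have h2 := ha i
    have h3 := ha j
    have h4 : ((a j - a i : ℤ) : K) = ((2 * k : ℤ) : K) := by rw [hk]
    push_cast at h4
    have h5 : (2 : K) * (α.1 y - k) = 0 := by linear_combination (-2) * h1 + h3 - h2 + h4
    exact sub_eq_zero.1 ((mul_eq_zero.1 h5).resolve_left two_ne_zero)
  obtain ⟨y', hy'⟩ : ∃ y' : EuclideanSpace ℝ H.root, y' = (2 / (d : ℝ)) • ∑ i, (a i : ℝ) • vec (wt B i) := ⟨_, rfl⟩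
  have hyr : ∀ α : H.root, ∃ k : ℤ, (rootSystem H).root α y = (k : K) ∧
      (inner ℝ (vec (PF.CC.rt (rootSystem H) α)) y' : ℝ) = (k : ℝ) := by
    intro α
    obtain ⟨k, hk⟩ := hαy α
    refine ⟨k, hk, ?_⟩
    have h1 := hQ3 α (fun i => wt B i α) (fun i => wt_spec B i α) y
    rw [hk] at h1
    have h2 : (∑ i, a i * wt B i α : ℤ) = (∑ i, wt B i α * wt B i α) * k := by
      have h3 : ((∑ i, a i * wt B i α : ℤ) : K) = (((∑ i, wt B i α * wt B i α) * k : ℤ) : K) := by
        rw [Int.cast_mul, ← h1, Int.cast_sum, Finset.mul_sum]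
        refine Finset.sum_congr rfl fun i _ => ?_
        rw [Int.cast_mul, ← ha i]
        ring
      exact_mod_cast h3
    have h3 : ∀ i, (inner ℝ (vec (PF.CC.rt (rootSystem H) α)) (vec (wt B i)) : ℝ) = (wt B i α : ℝ) *
        ((∑ k, PF.CC.rt (rootSystem H) α k * PF.CC.rt (rootSystem H) α k : ℤ) : ℝ) / 2 := by
      intro i
      have h4 := two_sum (rootSystem H) (wt_wt B i) α
      rw [real_inner_comm, inner_vec]
      have h5 : (2 : ℝ) * ((∑ k, wt B i k * PF.CC.rt (rootSystem H) α k : ℤ) : ℝ) =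
        (wt B i α : ℝ) * ((∑ k, PF.CC.rt (rootSystem H) α k * PF.CC.rt (rootSystem H) α k : ℤ) : ℝ) := by exact_mod_cast h4
      linarith
    rw [hy', inner_smul_right, inner_sum]
    have h4 : ∑ i, (inner ℝ (vec (PF.CC.rt (rootSystem H) α)) ((a i : ℝ) • vec (wt B i)) : ℝ) =
        ((∑ i, a i * wt B i α : ℤ) : ℝ) *
          (((∑ k, PF.CC.rt (rootSystem H) α k * PF.CC.rt (rootSystem H) α k : ℤ) : ℝ) / 2) := by
      rw [Int.cast_sum, Finset.sum_mul]
      refine Finset.sum_congr rfl fun i _ => ?_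
      rw [inner_smul_right, h3, Int.cast_mul]
      ring
    rw [h4, h2]
    have h5 : (((∑ i, wt B i α * wt B i α : ℤ) : ℝ)) *
      ((∑ j, PF.CC.rt (rootSystem H) α j * PF.CC.rt (rootSystem H) α j : ℤ) : ℝ) = (d : ℝ) := by exact_mod_cast hd α
    rw [Int.cast_mul, ← h5]
    have h6 : (0 : ℝ) < ((∑ i, wt B i α * wt B i α : ℤ) : ℝ) := by exact_mod_cast hS α
    have h7 : (0 : ℝ) < ((∑ j, PF.CC.rt (rootSystem H) α j * PF.CC.rt (rootSystem H) α j : ℤ) : ℝ) := by
      exact_mod_cast sum_pos (rootSystem H) α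
    field_simp
  have hw := fun i => lat_w B hsat hQr hyr i
  have hdy : (d : ℝ) * inner ℝ y' y' = T := by
    have h1 : (inner ℝ y' y' : ℝ) = (2 / (d : ℝ)) * ∑ i, (a i : ℝ) * ((a i : ℝ) / 2) := by
      conv_lhs => rw [hy']
      rw [inner_smul_left, sum_inner]
      simp only [conj_trivial]
      congr 1
      refine Finset.sum_congr rfl fun i _ => ?_
      rw [inner_smul_left, ← hy', (hw i).2.1 (a i) (ha i)]
      simp only [conj_trivial]
    have h2 : (T : ℝ) = ∑ i, (a i : ℝ) ^ 2 := by exact_mod_cast hT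
    rw [h1, h2, Finset.mul_sum, Finset.mul_sum]
    refine Finset.sum_congr rfl fun i _ => ?_
    field_simp
  have hdom : ∀ j ∈ b.support, 0 ≤ wt B t j := by
    intro j hj
    obtain ⟨k, hk⟩ := htdom j hj
    have h1 : ((wt B t j : ℤ) : K) = ((k : ℤ) : K) := by
      rw [← wt_spec, hk]
      push_cast
      rfl
    have h2 : wt B t j = k := by exact_mod_cast h1
    omega
  have hcardPh : (Ph (rootSystem H)).card = Fintype.card H.root := by
    unfold Ph
    rw [Finset.card_image_of_injective _ fun α β h => rt_inj (rootSystem H) (vec_inj h), Finset.card_univ]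
  -- no weight above t
  have hnoup : ∀ α ∈ pos b, ∀ i, B.w i ≠ B.w t + (rootSystem H).root α := by
    intro α hα i h1
    obtain ⟨κ, hκ⟩ := htb i
    rw [h1] at hκ
    have hα' : b.IsPos α := by simpa [pos] using hα
    have h2 : (rootSystem H).root α = ∑ j ∈ b.support, (-(κ j : ℤ)) • (rootSystem H).root j := by
      have h3 : (rootSystem H).root α = - ∑ j ∈ b.support, (κ j : K) • (rootSystem H).root j := by
        have h4 : B.w t + (rootSystem H).root α - B.w t = B.w t - ∑ j ∈ b.support, (κ j : K) • (rootSystem H).root j - B.w t := by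
          rw [hκ]
        rw [add_sub_cancel_left] at h4
        rw [h4]
        abel
      rw [h3, ← Finset.sum_neg_distrib]
      refine Finset.sum_congr rfl fun j _ => ?_
      rw [neg_smul, natCast_zsmul, Nat.cast_smul_eq_nsmul]
    have h3 := b.height_eq_sum h2
    rw [RootPairing.Base.isPos_iff, h3] at hα'
    have h4 : ∑ j ∈ b.support, -(κ j : ℤ) ≤ 0 := Finset.sum_nonpos fun j _ => by simp
    omega
  have hc := hQ6 t hnoup
  -- the integral form of c
  obtain ⟨m, hm⟩ : ∃ m : ℤ, m = ∑ j, wt B t j * wt B t j + ∑ α ∈ pos b, ∑ j, wt B t j * PF.CC.rt (rootSystem H) α j :=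
    ⟨_, rfl⟩
  have hdc : (d : K) * c = 4 * (m : K) := by
    rw [hc, mul_add, (hw t).1 (B.w t) (wt B t) (fun β => wt_spec B t β), Finset.mul_sum,
      Finset.sum_congr rfl fun α _ => hQr α (B.w t) (wt B t) (fun β => wt_spec B t β), ← Finset.mul_sum, hm]
    push_cast
    ring
  have hfin : 4 * m * (Fintype.card I : ℤ) = d * (finrank K L : ℤ) := by
    have h1 : ((4 * m * (Fintype.card I : ℤ) : ℤ) : K) = ((d * (finrank K L : ℤ) : ℤ) : K) := by
      push_cast
      rw [← hQ5]
      linear_combination -(Fintype.card I : K) * hdc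
    exact_mod_cast h1
  have hdim : Fintype.card H.root + finrank K H = finrank K L := card_root_eq H
  -- the rank
  have hrank : finrank ℝ (Submodule.span ℝ (Ph (rootSystem H) : Set (EuclideanSpace ℝ H.root))) = finrank K H := by
    obtain ⟨U, hU⟩ : ∃ U : Submodule ℝ (EuclideanSpace ℝ H.root),
      U = Submodule.span ℝ (Ph (rootSystem H) : Set (EuclideanSpace ℝ H.root)) := ⟨_, rfl⟩
    rw [← hU]
    have hwU : ∀ i, vec (wt B i) ∈ U := fun i => by rw [hU]; exact (hw i).2.2
    have h1 : ∀ u ∈ U, ∑ i, (inner ℝ (vec (wt B i)) u : ℝ) • vec (wt B i) = ((d : ℝ) / 4) • u := by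
      intro u hu
      rw [hU] at hu
      induction hu using Submodule.span_induction with
      | mem u hu =>
        obtain ⟨α, rfl⟩ := (mem_Ph _).1 (Finset.mem_coe.1 hu)
        ext β
        have h2 := hQ3 α (fun i => wt B i α) (fun i => wt_spec B i α) (coroot β.1)
        rw [rt_spec] at h2
        have h3 : 2 * ∑ i, wt B i β * wt B i α = (∑ i, wt B i α * wt B i α) * PF.CC.rt (rootSystem H) α β := by
          have h4 : ((2 * ∑ i, wt B i β * wt B i α : ℤ) : K) =
              (((∑ i, wt B i α * wt B i α) * PF.CC.rt (rootSystem H) α β : ℤ) : K) := by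
            rw [Int.cast_mul _ (PF.CC.rt (rootSystem H) α β), ← h2]
            push_cast
            congr 1
            refine Finset.sum_congr rfl fun i _ => ?_
            rw [wt_spec]
          exact_mod_cast h4
        have h4 : ∀ i, (inner ℝ (vec (wt B i)) (vec (PF.CC.rt (rootSystem H) α)) : ℝ) = (wt B i α : ℝ) *
            ((∑ k, PF.CC.rt (rootSystem H) α k * PF.CC.rt (rootSystem H) α k : ℤ) : ℝ) / 2 := by
          intro i
          have h4 := two_sum (rootSystem H) (wt_wt B i) α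
          rw [inner_vec]
          have h5 : (2 : ℝ) * ((∑ k, wt B i k * PF.CC.rt (rootSystem H) α k : ℤ) : ℝ) =
            (wt B i α : ℝ) * ((∑ k, PF.CC.rt (rootSystem H) α k * PF.CC.rt (rootSystem H) α k : ℤ) : ℝ) := by
            exact_mod_cast h4
          linarith
        simp only [WithLp.ofLp_sum, WithLp.ofLp_smul, Finset.sum_apply, Pi.smul_apply, smul_eq_mul, vec_apply]
        rw [Finset.sum_congr rfl fun i _ => by rw [h4 i]]
        have h5 : (((∑ i, wt B i α * wt B i α : ℤ) : ℝ)) *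
          ((∑ j, PF.CC.rt (rootSystem H) α j * PF.CC.rt (rootSystem H) α j : ℤ) : ℝ) = (d : ℝ) := by exact_mod_cast hd α
        have h6 : (2 : ℝ) * ((∑ i, wt B i β * wt B i α : ℤ) : ℝ) =
            ((∑ i, wt B i α * wt B i α : ℤ) : ℝ) * (PF.CC.rt (rootSystem H) α β : ℝ) := by exact_mod_cast h3
        have h7 : ∑ i, (wt B i α : ℝ) * ((∑ k, PF.CC.rt (rootSystem H) α k * PF.CC.rt (rootSystem H) α k : ℤ) : ℝ) / 2 *
            (wt B i β : ℝ) = ((∑ i, wt B i β * wt B i α : ℤ) : ℝ) *
            (((∑ k, PF.CC.rt (rootSystem H) α k * PF.CC.rt (rootSystem H) α k : ℤ) : ℝ) / 2) := by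
          have h8 : ((∑ i, wt B i β * wt B i α : ℤ) : ℝ) = ∑ i, (wt B i β : ℝ) * (wt B i α : ℝ) := by
            push_cast
            rfl
          rw [h8, Finset.sum_mul]
          refine Finset.sum_congr rfl fun i _ => ?_
          ring
        rw [h7, ← h5]
        linear_combination (((∑ k, PF.CC.rt (rootSystem H) α k * PF.CC.rt (rootSystem H) α k : ℤ) : ℝ) / 4) * h6
      | zero => simp
      | add u v _ _ hu hv =>
        simp only [inner_add_right, add_smul, Finset.sum_add_distrib, smul_add]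
        rw [hu, hv]
      | smul k u _ hu =>
        simp only [inner_smul_right, mul_smul]
        rw [← Finset.smul_sum, hu, smul_comm]
    have h2 : (∑ i, (((innerSL ℝ (vec (wt B i))).toLinearMap.comp U.subtype).smulRight (⟨vec (wt B i), hwU i⟩ : U)) :
        U →ₗ[ℝ] U) = ((d : ℝ) / 4) • LinearMap.id := by
      refine LinearMap.ext fun u => ?_
      apply Subtype.ext
      rw [LinearMap.sum_apply, LinearMap.smul_apply, LinearMap.id_apply, Submodule.coe_sum, Submodule.coe_smul, ← h1 u u.2]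
      rfl
    have h3 := congrArg (LinearMap.trace ℝ U) h2
    rw [map_sum, map_smul, LinearMap.trace_id, smul_eq_mul] at h3
    have h4 : ∑ i, LinearMap.trace ℝ U (((innerSL ℝ (vec (wt B i))).toLinearMap.comp U.subtype).smulRight
        (⟨vec (wt B i), hwU i⟩ : U)) = ((∑ i, ∑ j, wt B i j * wt B i j : ℤ) : ℝ) := by
      rw [Int.cast_sum]
      refine Finset.sum_congr rfl fun i _ => ?_
      rw [LinearMap.trace_smulRight, ← inner_vec]
      rfl
    rw [h4] at h3
    have h5 : 4 * ∑ i, ∑ j, wt B i j * wt B i j = d * (finrank K H : ℤ) := by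
      have h6 : ((4 * ∑ i, ∑ j, wt B i j * wt B i j : ℤ) : K) = ((d * (finrank K H : ℤ) : ℤ) : K) := by
        have h7 : (d : K) * ∑ i, Q (B.w i) (B.w i) = ∑ i, 4 * ((∑ j, wt B i j * wt B i j : ℤ) : K) := by
          rw [Finset.mul_sum]
          exact Finset.sum_congr rfl fun i _ => (hw i).1 (B.w i) (wt B i) (fun β => wt_spec B i β)
        rw [Int.cast_mul d, Int.cast_natCast, ← hQ4, h7, ← Finset.mul_sum]
        push_cast
        rfl
      exact_mod_cast h6
    have h6 : (4 : ℝ) * ((∑ i, ∑ j, wt B i j * wt B i j : ℤ) : ℝ) = (d : ℝ) * (finrank K H : ℝ) := by exact_mod_cast h5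
    have h7 : (d : ℝ) * (finrank ℝ U : ℝ) = (d : ℝ) * (finrank K H : ℝ) := by rw [← h6, h3]; ring
    exact_mod_cast mul_left_cancel₀ hdR.ne' h7
  have hTpos : 0 < T := by
    rcases Nat.eq_zero_or_pos T with h0 | h0
    · exfalso
      rw [h0] at hT
      have h1 : ∀ i, a i = 0 := by
        intro i
        have h2 := (Finset.sum_eq_zero_iff_of_nonneg (fun i _ => sq_nonneg (a i))).1 (by simpa using hT.symm) i (Finset.mem_univ i)
        exact pow_eq_zero_iff (two_ne_zero) |>.1 h2
      apply hy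
      have h2 : (y : L) = 0 := by
        apply hfaith
        intro u
        rw [← B.v.sum_repr u, lie_sum]
        refine Finset.sum_eq_zero fun i _ => ?_
        have h3 : B.w i y = 0 := by
          have h4 := ha i
          rw [h1 i, Int.cast_zero] at h4
          exact (mul_eq_zero.1 h4).resolve_left two_ne_zero
        rw [lie_smul, B.lie_v, h3, zero_smul, smul_zero]
      exact Subtype.ext h2
    · exact h0
  refine ⟨b, t, y', ⟨rs (rootSystem H), hsat, card_Xw B, (mem_Xw B).2 ⟨t, rfl⟩, ?_, fun x hx => norm_le B hsat b htb hdom hx,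
    ?_, ?_, ?_⟩, hTpos, hrank, htb, fun i => (hw i).2.1 (a i) (ha i)⟩
  · intro h0
    obtain ⟨α⟩ := ‹Nonempty H.root›
    obtain ⟨x, hx, hx0⟩ := exists_ne_zero' B hfaith α
    have h1 := norm_le B hsat b htb hdom hx
    rw [h0, inner_zero_left] at h1
    exact hx0 (inner_self_eq_zero.1 (le_antisymm h1 real_inner_self_nonneg))
  · intro x hx
    obtain ⟨α, rfl⟩ := (mem_Ph _).1 hx
    obtain ⟨k, -, hk⟩ := hyr α
    exact ⟨k, hk⟩
  · rw [hy']
    exact Submodule.smul_mem _ _ (Submodule.sum_mem _ fun i _ => Submodule.smul_mem _ _ (hw i).2.2)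
  · rw [cas_eq b B hdom, ← hm, hrank, hcardPh]
    have h1 : (4 : ℝ) * (m : ℝ) * (Fintype.card I : ℝ) = (d : ℝ) * (finrank K L : ℝ) := by exact_mod_cast hfin
    have h2 : ((Fintype.card H.root + finrank K H : ℕ) : ℝ) = (finrank K L : ℝ) := by rw [hdim]
    push_cast at h2
    rw [add_comm, h2, ← hdy]
    linear_combination (inner ℝ y' y' : ℝ) * h1


/-- **Block 4.** The trace identity with the levels and their multiplicities. -/
theorem exists_in_lv (B : WB (V := V) H I) [Nonempty I] [Nonempty H.root] [(rootSystem H).IsIrreducible]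
    (hirr : ∀ W : Submodule K V, (∀ x : L, ∀ u ∈ W, ⁅x, u⁆ ∈ W) → W = ⊥ ∨ W = ⊤)
    (hfaith : ∀ x : L, (∀ u : V, ⁅x, u⁆ = 0) → x = 0)
    (hnd : ω.Nondegenerate) (hsk : ∀ (x : L) (u v : V), ω ⁅x, u⁆ v = - ω u ⁅x, v⁆)
    {y : H} (hy : y ≠ 0) (a : I → ℤ) (ha : ∀ i, B.w i y = (a i : K))
    {T : ℕ} (hT : (T : ℤ) = ∑ i, (2 * a i) ^ 2) :
    ∃ (b : (rootSystem H).Base) (t : I) (y' : EuclideanSpace ℝ H.root),
      In (PF.CC.Ph (rootSystem H)) (PF.CC.Xw B) (Fintype.card I) T (PF.CC.vec (PF.CC.wt B t)) y' ∧ 0 < T ∧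
      finrank ℝ (Submodule.span ℝ (PF.CC.Ph (rootSystem H) : Set (EuclideanSpace ℝ H.root))) = finrank K H ∧
      (∀ i, Below b (B.w t) (B.w i)) ∧
      Lv (PF.CC.Xw B) (Fintype.card I) y' (fun k => Fintype.card {i // a i = k}) := by
  classical
  obtain ⟨b, t, y', h1, h2, h3, h4, h5⟩ := exists_in2 B hirr hfaith hnd hsk hy (fun i => 2 * a i)
    (fun i => by rw [ha i]; push_cast; ring) (fun i j => ⟨a i - a j, by ring⟩) hT
  have h6 : ∀ i, (inner ℝ (vec (wt B i)) y' : ℝ) = (a i : ℝ) := by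
    intro i
    rw [h5 i]
    push_cast
    ring
  refine ⟨b, t, y', h1, h2, h3, h4, ?_, fun x => (Finset.univ.filter fun i => vec (wt B i) = x).card, ?_, ?_, ?_⟩
  · intro x hx
    obtain ⟨i, rfl⟩ := (mem_Xw B).1 hx
    exact ⟨a i, h6 i⟩
  · intro x hx
    obtain ⟨i, hi⟩ := (mem_Xw B).1 hx
    exact Finset.card_pos.2 ⟨i, Finset.mem_filter.2 ⟨Finset.mem_univ _, hi⟩⟩
  · have h7 := Finset.card_eq_sum_card_fiberwise (f := fun i => vec (wt B i)) (s := (Finset.univ : Finset I)) (t := Xw B)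
      (fun i _ => (mem_Xw B).2 ⟨i, rfl⟩)
    rw [Finset.card_univ] at h7
    exact h7.symm
  · intro k
    have h7 := Finset.card_eq_sum_card_fiberwise (f := fun i => vec (wt B i)) (s := (Finset.univ.filter fun i => a i = k))
      (t := (Xw B).filter fun x => (inner ℝ x y' : ℝ) = (k : ℝ)) (by
        intro i hi
        have hi' : a i = k := by simpa using hi
        refine Finset.mem_coe.2 (Finset.mem_filter.2 ⟨(mem_Xw B).2 ⟨i, rfl⟩, ?_⟩)
        rw [h6, hi'])
    have h9 : Fintype.card {i // a i = k} = (Finset.univ.filter fun i => a i = k).card := Fintype.card_subtype _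
    refine Eq.trans ?_ (h9.trans h7).symm
    refine Finset.sum_congr rfl fun x hx => ?_
    refine congrArg Finset.card ?_
    ext i
    simp only [Finset.mem_filter, Finset.mem_univ, true_and]
    constructor
    · intro hi
      refine ⟨?_, hi⟩
      have h8 := (Finset.mem_filter.1 hx).2
      rw [← hi, h6] at h8
      exact_mod_cast h8
    · exact fun h => h.2

end TF
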